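import Pool.Agent.Y17.X.Low
import Pool.Agent.Y17.X.TwoP
import Pool.Agent.Y17.X.Joint
import Pool.Agent.Y687.JQ.Fin

/-!
# The exact proportion of the twists of `X_0(14)` with trivial `2`-part of `Ш`, and the exact
`2`-part of the formula for all of them

`E_D : Y² = X (X² + 13 D X + 128 D²)` is the quadratic twist of `X_0(14)` by `D`, with the global
minimal equation `WM D`. Its field of `2`-division is `ℚ(√-7)`. The class `Adm` consists of the
squarefree `D = 1 mod 4` of any sign which are squares modulo `7`, prime to `3`, and all prime factors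
of which split completely in `ℚ(i, √2, √-7)` or are inert in `ℚ(√2)` and in `ℚ(√-7)`; it has at least
`a X / (log X)^(5/8)` elements up to `X`, and with `m` and `D` it contains the squarefree part
`star m D` of `m D`. For each sign, the exact proportion `∏_{i ≥ 0} (1 - 2^{-(2i+1)}) = 0.4194...` of
the `D` in the class satisfy: `L(E_D, 1) ≠ 0`, `E_D(ℚ)` is finite, `Ш(E_D/ℚ)[2^∞] = 0` and the exact
`2`-part of the formula holds; for different `m` these properties of `star m D` are asymptotically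
independent. In the class they hold for all `D ≠ 1` for which `E_D(ℚ)` is finite and
`Ш(E_D/ℚ)[2] = 0`.
-/

set_option autoImplicit false

open Finset Filter

namespace Pool.Agent.Results.MP_9c97e9_nt.ExactProportionTwoPart

open Pool.Agent.W97.MT (IsGloballyMinimal)
open Pool.Agent.Y700 (WM Omega tamProd IsL EQ)

/-- primes which split completely in `ℚ(i, √2, √-7)` -/
def Split (p : ℕ) : Prop := p.Prime ∧ p % 8 = 1 ∧ (p % 7 = 1 ∨ p % 7 = 2 ∨ p % 7 = 4)

/-- primes inert in `ℚ(√2)` and in `ℚ(√-7)` -/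
def Inert (q : ℕ) : Prop :=
  q.Prime ∧ (q % 8 = 3 ∨ q % 8 = 5) ∧ (q % 7 = 3 ∨ q % 7 = 5 ∨ q % 7 = 6)

/-- the class of discriminants -/
def Adm (D : ℤ) : Prop := Squarefree D ∧ D % 4 = 1 ∧ (D % 7 = 1 ∨ D % 7 = 2 ∨ D % 7 = 4) ∧
  ∀ p : ℕ, p.Prime → (p : ℤ) ∣ D → p ≠ 3 ∧ (Split p ∨ Inert p)

/-- For the curve `E` with the equation `W`: the equation is globally minimal, `E(ℚ)` is finite,
`Ш(E/ℚ)` has no nontrivial element of order a power of `2`, the `L`-function exists, and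
`L(E, 1) = w Ω ∏ c_l / #E(ℚ)_tors²` is not zero, with a rational number `w` which is a `2`-adic
unit. -/
def TwoPart (W : WeierstrassCurve ℤ) : Prop :=
  IsGloballyMinimal W ∧ Finite (EQ W).toAffine.Point ∧
  (∀ (n : ℕ) (x : Pool.Agent.TH841.SH.D.Sha (EQ W)), 2 ^ n • x = 0 → x = 0) ∧
  (∃ f, IsL W f) ∧ ∀ f, IsL W f → f 1 ≠ 0 ∧ ∃ w : ℚ, w ≠ 0 ∧ padicValRat 2 w = 0 ∧
    f 1 = (((w : ℝ) * (Omega W * tamProd W /
      (Nat.card (AddCommGroup.torsion (EQ W).toAffine.Point) : ℝ) ^ 2) : ℝ) : ℂ)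

/-- the squarefree part of the product of two squarefree numbers -/
def star (m D : ℤ) : ℤ := m * D / (Int.gcd m D : ℤ) ^ 2

/-- the number of the `D` in the class with `s D > 0`, `|D| ≤ X` and the property `Q` -/
noncomputable def count (s : ℤ) (Q : ℤ → Prop) (X : ℕ) : ℕ :=
  Nat.card {D : ℤ // |D| ≤ X ∧ Adm D ∧ 0 < s * D ∧ Q D}

theorem result :
    (∀ D : ℤ, Adm D → D ≠ 1 → Finite (EQ (WM D)).toAffine.Point →
      (∀ x : Pool.Agent.TH841.SH.D.Sha (EQ (WM D)), 2 • x = 0 → x = 0) → TwoPart (WM D)) ∧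
    (∀ m D : ℤ, Adm m → Adm D → Adm (star m D)) ∧
    ∃ c : ℝ, 0.4194 < c ∧ c < 0.4195 ∧
      Tendsto (fun n : ℕ => ∏ i ∈ range n, (1 - (1 / 2 : ℝ) ^ (2 * i + 1))) atTop (nhds c) ∧
      ∀ s : ℤ, (s = 1 ∨ s = -1) → ∀ G K : Finset ℤ, (∀ m ∈ G, Adm m) → (∀ m ∈ K, Adm m) →
        Disjoint G K →
        Tendsto (fun X : ℕ => (count s (fun D => (∀ m ∈ G, TwoPart (WM (star m D))) ∧
            ∀ m ∈ K, ¬ TwoPart (WM (star m D))) X : ℝ) / (count s (fun _ => True) X : ℝ))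
          atTop (nhds (c ^ G.card * (1 - c) ^ K.card)) ∧
        ∃ (a : ℝ) (X₀ : ℕ), 0 < a ∧ ∀ X : ℕ, X₀ ≤ X → a * (X * (Real.log X) ^ (-(5 / 8) : ℝ)) ≤
          (count s (fun D => (∀ m ∈ G, TwoPart (WM (star m D))) ∧
            ∀ m ∈ K, ¬ TwoPart (WM (star m D))) X : ℝ) := by
  have hA : ∀ D : ℤ, Adm D ↔ Y687.MQ.AdmD D := fun D => Iff.rfl
  have hT : ∀ D : ℤ, TwoPart (WM D) ↔ Y17.X.TwoP (WM D) := fun D => Iff.rfl
  have hS : ∀ m D : ℤ, star m D = Y17.X.star m D := fun m D => rfl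
  obtain ⟨hC, -, -, hc1, hc2⟩ := Y948.CQ.t_C2
  refine ⟨fun D h h1 hf hs => Y17.X.twoP_of h h1 hf hs,
    fun m D hm hD => (Y17.X.star_adm hm hD).1, Y703.CQ.c2, hc1, hc2, ?_, ?_⟩
  · rw [tendsto_iff_norm_sub_tendsto_zero]
    refine squeeze_zero (fun n => norm_nonneg _) (fun n => ?_)
      (tendsto_pow_atTop_nhds_zero_of_lt_one (by norm_num : (0 : ℝ) ≤ 1 / 4)
        (by norm_num : (1 / 4 : ℝ) < 1))
    rw [Real.norm_eq_abs]
    exact hC n
  · intro s hs G K hG hK hd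
    have h1 : ∀ X, count s (fun _ => True) X =
        Y17.X.count (fun D => Y687.MQ.AdmD D ∧ 0 < s * D) X := by
      intro X
      unfold count Y17.X.count
      simp only [hA, and_true]
    have h2 : ∀ X, count s (fun D => (∀ m ∈ G, TwoPart (WM (star m D))) ∧
        ∀ m ∈ K, ¬ TwoPart (WM (star m D))) X =
        Y17.X.count (fun D => Y687.MQ.AdmD D ∧ 0 < s * D ∧
          (∀ m ∈ G, Y17.X.TwoP (WM (Y17.X.star m D))) ∧
          ∀ m ∈ K, ¬ Y17.X.TwoP (WM (Y17.X.star m D))) X := by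
      intro X
      unfold count Y17.X.count
      simp only [hA, hT, hS]
    have hlim := Y17.X.pattern_of Y687.JQ.t_JDEN hs (fun D => Y17.X.TwoP (WM D))
      (fun D h hD => Y17.X.twoP_iff h hD) K hK G hG hd
    obtain ⟨c, X₀, hc, hlow⟩ := Y17.X.low hs
    have hB := Y17.X.base_atTop hs
    refine ⟨?_, ?_⟩
    · simp only [h1, h2]
      exact hlim
    · simp only [h2]
      have hpos : (0 : ℝ) < Y703.CQ.c2 ^ G.card * (1 - Y703.CQ.c2) ^ K.card := by
        have k1 : (0 : ℝ) < Y703.CQ.c2 := by linarith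
        have k2 : (0 : ℝ) < 1 - Y703.CQ.c2 := by linarith
        positivity
      refine Y17.X.low_of hpos hc X₀ (fun X hX => ?_) hB hlim
      rw [← mul_assoc]
      exact hlow X hX

end Pool.Agent.Results.MP_9c97e9_nt.ExactProportionTwoPart
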