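import Pool.Agent.Z695.Q.Fin

/-!
# The leading-term formula of Birch and Swinnerton-Dyer modulo two for ALL the twists of `X_0(20)` in
a family with arbitrarily many split primes, and the exact proportion of odd values

`E_D : y² = x³ - 11 D x² - D² x` is the quadratic twist by `D` of a curve of conductor `20` without
complex multiplication. Its field of `2`-division is `ℚ(√5)`, that of the isogenous curve is `ℚ(i)`.
The family: `D` is squarefree, its prime factors are congruent to `1` or `9` modulo `40` (they split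
completely in `ℚ(i, √2, √5)`; at least one of them) or congruent to `e` modulo `8` and to `2` or `3`
modulo `5` (inert in `ℚ(i)` and `ℚ(√5)`; an even number of them), where `e` is `3` or `7`. For all
members of the family the number `L(E_D, 1) |E_D(ℚ)_tors|² / (Ω ∏ c_p)` is the square of an integer
`y` up to a `2`-adic unit, and `y` is odd if and only if `E_D(ℚ)` is finite and `Ш(E_D)[2] = 0`, if
and only if an explicit matrix over `𝔽₂` is nonsingular. This happens for exactly the proportion
`∏_{i ≥ 0} (1 - 2^{-(2i+1)}) = 0.419...` of the family.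
-/

set_option autoImplicit false

open Finset Filter

namespace Pool.Agent.Results.MP_9c97e9_nt.FormulaModTwoTwenty

open Pool.Agent.Y695 (ED EQ IsLFun Om tamProd ShaTwoTrivial)

/-- primes congruent to `1` or `9` modulo `40`: they split completely in `ℚ(i, √2, √5)` -/
def Split (p : ℕ) : Prop := p.Prime ∧ (p % 40 = 1 ∨ p % 40 = 9)

/-- primes congruent to `e` modulo `8` which are not squares modulo `5`; for `e = 3, 7` they are inert
in `ℚ(i)` and in `ℚ(√5)` -/
def Inert (e q : ℕ) : Prop := q.Prime ∧ q % 8 = e ∧ (q % 5 = 2 ∨ q % 5 = 3)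

/-- the family: `D` is squarefree, all its prime factors are split or inert, at least one of them is
split, and the number of the inert ones is even -/
def InFamily (e D : ℕ) : Prop :=
  Squarefree D ∧ (∀ p ∈ D.primeFactors, Split p ∨ Inert e p) ∧ (∃ p ∈ D.primeFactors, Split p) ∧
    Even (D.primeFactors.filter fun p => p % 8 = e).card

open Classical in
/-- the matrix over `𝔽₂` with rows and columns indexed by the split prime factors of `D` (those
congruent to `1` modulo `8`): off the diagonal the entry at `(p, p')` is `1` if `p'` is not a square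
modulo `p` and `0` otherwise; on the diagonal it is the number of the prime factors of `D` different
from `p` which are not squares modulo `p`, plus `1` if the roots modulo `p` of `w² - 11 w - 1` are not
squares modulo `p` -/
noncomputable def R (D : ℕ) :
    Matrix (D.primeFactors.filter fun p => p % 8 = 1) (D.primeFactors.filter fun p => p % 8 = 1)
      (ZMod 2) := Matrix.of fun i j =>
  if i = j then
    (((D.primeFactors.filter fun q : ℕ => q ≠ (i : ℕ) ∧ ¬ IsSquare (q : ZMod (i : ℕ))).card :
      ZMod 2) + if ∀ w : ZMod (i : ℕ), w ^ 2 - 11 * w - 1 = 0 → ¬ IsSquare w then 1 else 0)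
  else if IsSquare (((j : ℕ)) : ZMod (i : ℕ)) then 0 else 1

open scoped Classical in
/-- `E(ℚ)` is finite and `Ш(E/ℚ)` has no element of order two -/
def RankZeroShaTwo (W : WeierstrassCurve ℤ) : Prop :=
  Finite (EQ W).toAffine.Point ∧ ∀ c : Pool.Agent.TH344.SH.Sha (EQ W), 2 • c = 0 → c = 0

/-- For the curve with the global minimal equation `W`: the `L`-function has an entire continuation
`Λ`, and there are an integer `y` and a rational number `u` with odd numerator and denominator such
that `Λ(1) = u y² Ω ∏ c_p / |E(ℚ)_tors|²`; `y` is odd if and only if `E(ℚ)` is finite and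
`Ш(E/ℚ)[2] = 0`, and in this case `Λ(1) ≠ 0` and `Ш(E/ℚ)[2^∞] = 0`. -/
def FormulaModTwo (W : WeierstrassCurve ℤ) : Prop :=
  W97.MT.IsGloballyMinimal W ∧ ∃ (Λ : ℂ → ℂ) (y : ℤ) (u : ℚ), IsLFun W Λ ∧
    (Odd y ↔ RankZeroShaTwo W) ∧ (Odd y → Λ 1 ≠ 0 ∧ ShaTwoTrivial (EQ W)) ∧
    Odd u.num ∧ Odd u.den ∧
    Λ 1 = ((u * (y : ℝ) ^ 2 * (Om W * tamProd W /
      (Nat.card (AddCommGroup.torsion (EQ W).toAffine.Point) : ℝ) ^ 2) : ℝ) : ℂ)

open Classical in
/-- the number of the positive integers `D ≤ X` with the property `Q` -/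
noncomputable def count (Q : ℕ → Prop) (X : ℕ) : ℝ := (((Icc 1 X).filter Q).card : ℝ)

theorem result (e : ℕ) (he : e = 3 ∨ e = 7) :
    (∀ D : ℕ, InFamily e D → FormulaModTwo (ED (D : ℤ)) ∧
      (RankZeroShaTwo (ED (D : ℤ)) ↔ (R D).det ≠ 0)) ∧
    (∀ P : Finset ℕ, (∀ p ∈ P, Split p) → P.Nonempty →
      {D : ℕ | InFamily e D ∧ (D.primeFactors.filter fun p => p % 8 = 1) = P ∧
        RankZeroShaTwo (ED (D : ℤ))}.Infinite) ∧
    Tendsto (fun X : ℕ => count (fun D => InFamily e D ∧ RankZeroShaTwo (ED (D : ℤ))) X /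
      count (InFamily e) X) atTop (nhds (∏' i : ℕ, (1 - (1 / 2 : ℝ) ^ (2 * i + 1)))) ∧
    0.4194 < ∏' i : ℕ, (1 - (1 / 2 : ℝ) ^ (2 * i + 1)) ∧
    ∏' i : ℕ, (1 - (1 / 2 : ℝ) ^ (2 * i + 1)) < 0.4195 := by
  obtain ⟨h1, h2, h3, h4, h5⟩ := Pool.Agent.Z695.Q.final e he
  refine ⟨h1, h2, ?_, h4, h5⟩
  exact h3

end Pool.Agent.Results.MP_9c97e9_nt.FormulaModTwoTwenty
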