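import Pool.Agent.Y775.BM.Fin
import Pool.Agent.Y809.BSD14.Tam3
import Pool.Agent.Y248.BSD14.Omega
import Pool.Agent.Y814.BSD14.SEL
import Pool.Agent.Y641.BSD14.T2
import Pool.Agent.Y641.BSD14.T7

/-!
# The `2`-part of the formula of Birch and Swinnerton-Dyer for twists of `X_0(14)` by
`a b q₁ ⋯ q_r`, with a pair of primes split in exactly one of the two fields

`E_M : Y² = X (X² + 13 M X + 128 M²)` is the quadratic twist of `X_0(14)` by `M`, with the global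
minimal equation `WM M` (`M = 1 mod 4` squarefree, prime to `7`). Its field of `2`-division is
`ℚ(√-7)`, that of the isogenous curve is `ℚ(√2)`. Here `M = a b q₁ ⋯ q_r`, where the prime `a` splits
in `ℚ(√2)` only, the prime `b` splits in `ℚ(√-7)` only, and the `q_i` are inert in both fields (all
congruent to `1` modulo `4`). The root numbers of `E_{a m}` and `E_{b m}`, `m = q₁ ⋯ q_r`, are `-1`,
that of `E_M` is `1`. If `a` is not a square modulo `b`, the value `L(E_M, 1)` is not zero, the group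
`E_M(ℚ)` is finite, the Tate-Shafarevich group has no `2`-torsion, and
`L(E_M, 1) #E_M(ℚ)² / (Ω ∏ c_p)` is a rational number with `2`-adic valuation zero.

(That `L(E_M, 1)` is not zero and that `E_M(ℚ)` is finite is `TwistsMixedPrimes` of `MP_8b7eba_nt`,
helper687.)
-/

set_option autoImplicit false

open Finset

namespace Pool.Agent.Results.MP_9c97e9_nt.TwoPartMixedPrimes

open Pool.Agent.W97.MT (affCount IsGloballyMinimal)
open Pool.Agent.Y700 (WM Omega tamProd IsL EQ)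

/-- primes congruent to `1` modulo `4`, inert in `ℚ(√2)` and in `ℚ(√-7)` -/
def Inert (q : ℕ) : Prop := q.Prime ∧ q % 8 = 5 ∧ (q % 7 = 3 ∨ q % 7 = 5 ∨ q % 7 = 6)

/-- primes congruent to `1` modulo `4`, split in `ℚ(√2)` and inert in `ℚ(√-7)` -/
def SplitTwo (a : ℕ) : Prop := a.Prime ∧ a % 8 = 1 ∧ (a % 7 = 3 ∨ a % 7 = 5 ∨ a % 7 = 6)

/-- primes congruent to `1` modulo `4`, inert in `ℚ(√2)` and split in `ℚ(√-7)` -/
def SplitSeven (b : ℕ) : Prop := b.Prime ∧ b % 8 = 5 ∧ (b % 7 = 1 ∨ b % 7 = 2 ∨ b % 7 = 4)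

/-- For the curve with the global minimal equation `W`: `E(ℚ)` is finite, `Ш(E/ℚ)[2^∞] = 0`, and the
`L`-function of `E` (the entire function equal to the Euler product for `Re s > 3/2`) satisfies
`L(E, 1) = u Ω ∏ c_p / #E(ℚ)²`, not zero, with a rational number `u` of `2`-adic valuation
`0 = ord_2 #Ш(E/ℚ)[2^∞]`. -/
def TwoPart (W : WeierstrassCurve ℤ) : Prop :=
  IsGloballyMinimal W ∧
  Finite (EQ W).toAffine.Point ∧
  (∀ (n : ℕ) (x : Pool.Agent.TH841.SH.D.Sha (EQ W)), 2 ^ n • x = 0 → x = 0) ∧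
  (∃ f, IsL W f) ∧
  ∀ f, IsL W f → f 1 ≠ 0 ∧ ∃ u : ℚ, padicValRat 2 u = 0 ∧
    f 1 = (((u : ℝ) * (Omega W * tamProd W / (Nat.card (EQ W).toAffine.Point : ℝ) ^ 2) : ℝ) : ℂ)

theorem result :
    (∀ (a b : ℕ) (S : Finset ℕ), SplitTwo a → SplitSeven b → (∀ q ∈ S, Inert q) →
      ¬ IsSquare (a : ZMod b) → TwoPart (WM ((a * b * ∏ q ∈ S, q : ℕ) : ℤ))) ∧
    (∀ a : ℕ, SplitTwo a → {b : ℕ | SplitSeven b ∧ ¬ IsSquare (a : ZMod b)}.Infinite) ∧
    (∀ b : ℕ, SplitSeven b → {a : ℕ | SplitTwo a ∧ ¬ IsSquare (a : ZMod b)}.Infinite) :=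
  ⟨fun _ _ _ ha hb hS hN => Pool.Agent.Y775.BM.main3 Pool.Agent.Y809.BSD14.t_E0
      Pool.Agent.Y809.BSD14.t_TIN Pool.Agent.Y809.BSD14.t_TSP Pool.Agent.Y641.BSD14.t2
      Pool.Agent.Y641.BSD14.t7 Pool.Agent.Y248.BSD14.t Pool.Agent.Y814.BSD14.t_MIN ha hb hS hN _ rfl,
    fun _ ha => Pool.Agent.Y687.infinite_B ha, fun _ hb => Pool.Agent.Y687.infinite_A hb⟩

end Pool.Agent.Results.MP_9c97e9_nt.TwoPartMixedPrimes
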