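import Pool.Agent.Y700.Fin
import Pool.Agent.Y809.BSD14.Tam3
import Pool.Agent.Y248.BSD14.Omega
import Pool.Agent.Y814.BSD14.SEL
import Pool.Agent.Y641.BSD14.T2
import Pool.Agent.Y641.BSD14.T7

/-!
# The `2`-part of the formula of Birch and Swinnerton-Dyer for twists of `X_0(14)` by `p q₁ ⋯ q_r`

`E_M : Y² = X (X² + 13 M X + 128 M²)` is the quadratic twist of `X_0(14)` by `M`, with the global
minimal equation `WM M` (`M = 1 mod 4` squarefree, prime to `7`). Its field of `2`-division is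
`ℚ(√-7)`. For `M = p q₁ ⋯ q_r`, with `p = 1 mod 8` split in this field, `q_i = 5 mod 8` inert, and
`8` not dividing the order of `E_m(𝔽_p)`, `m = q₁ ⋯ q_r`: the value `L(E_M, 1)` is not zero, the
group `E_M(ℚ)` is finite, the Tate-Shafarevich group has no `2`-torsion, and
`L(E_M, 1) #E_M(ℚ)² / (Ω ∏ c_p)` is a rational number with `2`-adic valuation zero.
-/

set_option autoImplicit false

open Finset

namespace Pool.Agent.Results.MP_9c97e9_nt.TwoPartSplitPrime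

open Pool.Agent.W97.MT (affCount IsGloballyMinimal)
open Pool.Agent.Y700 (WM Omega tamProd IsL EQ)

/-- For the curve with the global minimal equation `W`: `E(ℚ)` is finite, `Ш(E/ℚ)[2^∞] = 0`, and the
`L`-function of `E` (the entire function equal to the Euler product for `Re s > 3/2`) satisfies
`L(E, 1) = u Ω ∏ c_p / #E(ℚ)²`, not zero, with a rational number `u` of `2`-adic valuation
`0 = ord_2 #Ш(E/ℚ)[2^∞]`. -/
def TwoPart (W : WeierstrassCurve ℤ) : Prop :=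
  IsGloballyMinimal W ∧
  Finite (EQ W).toAffine.Point ∧
  (∀ (n : ℕ) (x : Pool.Agent.TH841.SH.D.Sha (EQ W)), 2 ^ n • x = 0 → x = 0) ∧
  (∃ f, IsL W f) ∧
  ∀ f, IsL W f → f 1 ≠ 0 ∧ ∃ u : ℚ, padicValRat 2 u = 0 ∧
    f 1 = (((u : ℝ) * (Omega W * tamProd W / (Nat.card (EQ W).toAffine.Point : ℝ) ^ 2) : ℝ) : ℂ)

theorem result (p : ℕ) (S : Finset ℕ) (hp : p.Prime) (hp8 : p % 8 = 1)
    (hp7 : p % 7 = 1 ∨ p % 7 = 2 ∨ p % 7 = 4)
    (hS : ∀ q ∈ S, q.Prime ∧ q % 8 = 5 ∧ (q % 7 = 3 ∨ q % 7 = 5 ∨ q % 7 = 6)) :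
    (¬ 8 ∣ affCount (WM ((∏ q ∈ S, q : ℕ) : ℤ)) p + 1 →
      TwoPart (WM ((p * ∏ q ∈ S, q : ℕ) : ℤ))) ∧
    {q : ℕ | (q.Prime ∧ q % 8 = 5 ∧ (q % 7 = 3 ∨ q % 7 = 5 ∨ q % 7 = 6)) ∧ q ∉ S ∧
      ¬ 8 ∣ affCount (WM ((∏ r ∈ insert q S, r : ℕ) : ℤ)) p + 1}.Infinite := by
  classical
  have hpS : Pool.Agent.Y687.Split p := ⟨hp, hp8, hp7⟩
  have hSI : ∀ q ∈ S, Pool.Agent.Y687.Inert q := hS
  refine ⟨fun hN => ?_, ?_⟩
  · exact Pool.Agent.Y700.main Pool.Agent.Y809.BSD14.t_E0 Pool.Agent.Y809.BSD14.t_TIN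
      Pool.Agent.Y809.BSD14.t_TSP Pool.Agent.Y641.BSD14.t2 Pool.Agent.Y641.BSD14.t7
      Pool.Agent.Y248.BSD14.t Pool.Agent.Y814.BSD14.t_SEL1 Pool.Agent.Y814.BSD14.t_SEL2
      Pool.Agent.Y814.BSD14.t_MIN hpS hSI hN _ rfl
  · refine (Pool.Agent.Y687.infinite_q hpS hSI).mono ?_
    rintro q ⟨hq, hqS, h8⟩
    refine ⟨hq, hqS, ?_⟩
    have hI : ∀ r ∈ insert q S, Pool.Agent.Y687.Inert r := by
      intro r hr
      rcases Finset.mem_insert.1 hr with rfl | hr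
      · exact hq
      · exact hSI r hr
    haveI : Fact p.Prime := ⟨hp⟩
    have hpm : ¬ p ∣ ∏ r ∈ insert q S, r := by
      intro h
      have h1 := (hI p (Pool.Agent.Y687.dvd_prod_primes (fun r hr => (hI r hr).1) hp h)).2.1
      omega
    rw [← Pool.Agent.Y700.cnt_affCount (by omega) (by omega)
      (Pool.Agent.Y687.prod_mod_four hI) hpm]
    convert h8 using 6

end Pool.Agent.Results.MP_9c97e9_nt.TwoPartSplitPrime
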